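import Pool.Agent.Helper26.Er.Defs

/-!
# Linear regression (MP_6b977f_mp): E4, unique continuation and proportionality
-/

set_option autoImplicit false
open MeasureTheory Filter Topology
open scoped ContDiff

namespace Pool.Agent.Helper12.Er

open Pool.Agent.W745.RW (lap)
open Pool.Agent.N661.BR (J0)
open Pool.Agent.Helper37.BC
open Pool.Agent.Helper26.Ip
open Pool.Agent.Helper26.Er
open Complex (I)

/-- E4a -/
theorem unique_cont
    (mean_deriv : ∀ {u : ℂ → ℝ}, ContDiff ℝ ∞ u → MeanValue u → ∀ e : ℂ,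
      MeanValue (fun z => fderiv ℝ u z e))
    (fderiv_bound : ∃ C : ℝ, 0 ≤ C ∧ ∀ (u : ℂ → ℝ), ContDiff ℝ ∞ u → MeanValue u → ∀ M : ℝ,
      (∀ z, |u z| ≤ M) → ∀ z, ‖fderiv ℝ u z‖ ≤ C * M)
    {w : ℂ → ℝ} (hw : ContDiff ℝ ∞ w) (hm : MeanValue w) {M : ℝ}
    (hb : ∀ z, |w z| ≤ M) {z₀ : ℂ} {δ : ℝ} (hδ : 0 < δ) (h0 : ∀ z ∈ Metric.ball z₀ δ, w z = 0) :
    ∀ z, w z = 0 := by
  obtain ⟨C, hC, hFB⟩ := fderiv_bound
  intro z
  obtain ⟨e, he⟩ : ∃ e : ℂ, e = z - z₀ := ⟨_, rfl⟩
  obtain ⟨U, hU0, hUs⟩ : ∃ U : ℕ → ℂ → ℝ, U 0 = w ∧ ∀ n, U (n + 1) = fun z => fderiv ℝ (U n) z e :=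
    ⟨fun n => Nat.rec w (fun _ u => fun z => fderiv ℝ u z e) n, rfl, fun n => rfl⟩
  have hUc : ∀ n, ContDiff ℝ ∞ (U n) := by
    intro n
    induction n with
    | zero => rw [hU0]; exact hw
    | succ n ih =>
      rw [hUs]
      exact (ih.fderiv_right (m := ∞) (by simp)).clm_apply contDiff_const
  have hUm : ∀ n, MeanValue (U n) := by
    intro n
    induction n with
    | zero => rw [hU0]; exact hm
    | succ n ih =>
      rw [hUs]
      exact mean_deriv (hUc n) ih e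
  have hUb : ∀ n y, |U n y| ≤ (C * ‖e‖) ^ n * M := by
    intro n
    induction n with
    | zero =>
      intro y
      rw [hU0, pow_zero, one_mul]
      exact hb y
    | succ n ih =>
      intro y
      have h1 := hFB (U n) (hUc n) (hUm n) _ ih y
      have h2 : ‖fderiv ℝ (U n) y e‖ ≤ ‖fderiv ℝ (U n) y‖ * ‖e‖ := (fderiv ℝ (U n) y).le_opNorm e
      rw [hUs, ← Real.norm_eq_abs]
      calc _ ≤ _ := h2
        _ ≤ C * ((C * ‖e‖) ^ n * M) * ‖e‖ := mul_le_mul_of_nonneg_right h1 (norm_nonneg _)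
        _ = _ := by ring
  have hUz : ∀ n, ∀ y ∈ Metric.ball z₀ δ, U n y = 0 := by
    intro n
    induction n with
    | zero => rw [hU0]; exact h0
    | succ n ih =>
      intro y hy
      rw [hUs]
      show fderiv ℝ (U n) y e = 0
      have h1 : U n =ᶠ[𝓝 y] fun _ => 0 :=
        Filter.eventually_of_mem (Metric.isOpen_ball.mem_nhds hy) ih
      rw [h1.fderiv_eq]
      simp
  have hd : ∀ n (t : ℝ), HasDerivAt (fun t : ℝ => U n (z₀ + t * e)) (U (n + 1) (z₀ + t * e)) t := by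
    intro n t
    have h1 : HasFDerivAt (U n) (fderiv ℝ (U n) (z₀ + t * e)) (z₀ + t * e) :=
      ((hUc n).differentiable (by simp) _).hasFDerivAt
    have h2 : HasDerivAt (fun t : ℝ => z₀ + (t:ℂ) * e) e t := by
      have := ((Complex.ofRealCLM.hasDerivAt (x := t)).mul_const e).const_add z₀
      simpa using this
    rw [hUs]
    exact h1.comp_hasDerivAt t h2
  have key : ∀ k n (t : ℝ), t ∈ Set.Icc (0:ℝ) 1 →
      ‖U n (z₀ + t * e)‖ ≤ (C * ‖e‖) ^ (n + k) * M * (t ^ k / (k.factorial : ℝ)) := by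
    intro k
    induction k with
    | zero =>
      intro n t _
      rw [Real.norm_eq_abs, add_zero, pow_zero, Nat.factorial_zero, Nat.cast_one, div_one, mul_one]
      exact hUb n _
    | succ k ih =>
      intro n t ht
      refine image_norm_le_of_norm_deriv_right_le_deriv_boundary
        (f := fun t : ℝ => U n (z₀ + t * e)) (f' := fun t : ℝ => U (n + 1) (z₀ + t * e))
        (B := fun t => (C * ‖e‖) ^ (n + (k + 1)) * M * (t ^ (k + 1) / ((k + 1).factorial : ℝ)))
        (B' := fun t => (C * ‖e‖) ^ (n + 1 + k) * M * (t ^ k / (k.factorial : ℝ)))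
        (fun t _ => (hd n t).continuousAt.continuousWithinAt)
        (fun t _ => (hd n t).hasDerivWithinAt) ?_ ?_ ?_ ht
      · show ‖U n (z₀ + (0:ℝ) * e)‖ ≤ _
        have h1 : z₀ + ((0:ℝ):ℂ) * e = z₀ := by simp
        rw [h1, hUz n z₀ (Metric.mem_ball_self hδ), norm_zero]
        simp
      · intro t
        have h1 := ((hasDerivAt_pow (k + 1) t).div_const ((k + 1).factorial : ℝ)).const_mul
          ((C * ‖e‖) ^ (n + (k + 1)) * M)
        refine h1.congr_deriv ?_
        have h2 : ((k.factorial : ℕ) : ℝ) ≠ 0 := Nat.cast_ne_zero.2 (Nat.factorial_ne_zero k)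
        have h3 : ((k : ℝ) + 1) ≠ 0 := by positivity
        rw [Nat.factorial_succ, Nat.cast_mul, Nat.cast_add, Nat.cast_one, Nat.add_sub_cancel,
          show n + (k + 1) = n + 1 + k by omega]
        field_simp
      · intro t ht
        exact ih (n + 1) t (Set.Ico_subset_Icc_self ht)
  have hlim : Tendsto (fun k : ℕ => (C * ‖e‖) ^ (0 + k) * M * ((1:ℝ) ^ k / (k.factorial : ℝ)))
      atTop (𝓝 0) := by
    have h1 := (FloorSemiring.tendsto_pow_div_factorial_atTop (C * ‖e‖)).mul_const M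
    rw [zero_mul] at h1
    refine h1.congr fun k => ?_
    rw [zero_add, one_pow]
    ring
  have h2 : ‖U 0 (z₀ + ((1:ℝ):ℂ) * e)‖ ≤ 0 :=
    ge_of_tendsto' hlim fun k => key k 0 1 ⟨zero_le_one, le_rfl⟩
  have h3 := norm_le_zero_iff.1 h2
  rw [hU0, he] at h3
  simpa using h3

/-- linear combinations of functions with the mean value property -/
theorem MeanValue.sub_smul {u w : ℂ → ℝ} (hu : Continuous u) (hw : Continuous w)
    (hmu : MeanValue u) (hmw : MeanValue w) (l : ℝ) : MeanValue (fun z => w z - l * u z) := by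
  intro z r hr
  have h1 : IntervalIntegrable (fun θ : ℝ => w (z + r * ee θ)) volume 0 (2 * Real.pi) :=
    (hw.comp (continuous_const.add (continuous_const.mul ee_cont))).intervalIntegrable _ _
  have h2 : IntervalIntegrable (fun θ : ℝ => l * u (z + r * ee θ)) volume 0 (2 * Real.pi) :=
    (continuous_const.mul
      (hu.comp (continuous_const.add (continuous_const.mul ee_cont)))).intervalIntegrable _ _
  rw [intervalIntegral.integral_sub h1 h2, intervalIntegral.integral_const_mul, hmu z r hr,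
    hmw z r hr]
  ring

/-- E4b -/
theorem proportional
    (smooth_of_mean : ∀ {u : ℂ → ℝ}, Continuous u → MeanValue u → ContDiff ℝ ∞ u)
    (lap_of_mean : ∀ {u : ℂ → ℝ}, ContDiff ℝ ∞ u → MeanValue u → ∀ z : ℂ, lap u z = - u z)
    (mean_deriv : ∀ {u : ℂ → ℝ}, ContDiff ℝ ∞ u → MeanValue u → ∀ e : ℂ,
      MeanValue (fun z => fderiv ℝ u z e))
    (fderiv_bound : ∃ C : ℝ, 0 ≤ C ∧ ∀ (u : ℂ → ℝ), ContDiff ℝ ∞ u → MeanValue u → ∀ M : ℝ,
      (∀ z, |u z| ≤ M) → ∀ z, ‖fderiv ℝ u z‖ ≤ C * M)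
    (caccioppoli : ∀ {u w : ℂ → ℝ}, ContDiff ℝ ∞ u → ContDiff ℝ ∞ w →
      (∀ z, lap u z = - u z) → (∀ z, lap w z = - w z) → (∀ z, |w z| ≤ |u z|) →
      ∀ {ζ : ℂ → ℝ}, ContDiff ℝ ∞ ζ → HasCompactSupport ζ →
      ∫ z, ζ z ^ 2 * GG u w z ≤ 2 * ∫ z, |ζ z| * |w z| * √(GG u w z) * √(g2 ζ z))
    (liouville : ∀ {u w : ℂ → ℝ}, ContDiff ℝ ∞ u → ContDiff ℝ ∞ w → ∀ {M : ℝ},
      (∀ z, |u z| ≤ M) → (∀ z, ‖fderiv ℝ u z‖ ≤ M) → (∀ z, ‖fderiv ℝ w z‖ ≤ M) →
      (∀ z, |w z| ≤ |u z|) →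
      (∀ ζ : ℂ → ℝ, ContDiff ℝ ∞ ζ → HasCompactSupport ζ →
        ∫ z, ζ z ^ 2 * GG u w z ≤ 2 * ∫ z, |ζ z| * |w z| * √(GG u w z) * √(g2 ζ z)) →
      ∀ z v, u z * fderiv ℝ w z v = w z * fderiv ℝ u z v)
    {u w : ℂ → ℝ} (hu : Continuous u) (hmu : MeanValue u) (hw : Continuous w)
    (hmw : MeanValue w) {M : ℝ} (hb : ∀ z, |u z| ≤ M) (h : ∀ z, |w z| ≤ |u z|) :
    ∃ l : ℝ, ∀ z, w z = l * u z := by
  have su := smooth_of_mean hu hmu
  have sw := smooth_of_mean hw hmw
  by_cases hz : ∀ z, u z = 0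
  · refine ⟨0, fun z => ?_⟩
    have h1 := h z
    rw [hz z, abs_zero] at h1
    rw [zero_mul]
    exact abs_nonpos_iff.1 h1
  · obtain ⟨z₀, hz₀⟩ := not_forall.1 hz
    obtain ⟨C, hC, hFB⟩ := id fderiv_bound
    have hbw : ∀ z, |w z| ≤ M := fun z => (h z).trans (hb z)
    have hL : ∀ z v, u z * fderiv ℝ w z v = w z * fderiv ℝ u z v :=
      liouville su sw (M := max M (C * M)) (fun z => (hb z).trans (le_max_left _ _))
        (fun z => (hFB u su hmu M hb z).trans (le_max_right _ _))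
        (fun z => (hFB w sw hmw M hbw z).trans (le_max_right _ _)) h
        fun ζ h1 h2 => caccioppoli su sw (lap_of_mean su hmu) (lap_of_mean sw hmw) h h1 h2
    obtain ⟨δ, hδ, hball⟩ : ∃ δ > 0, ∀ z ∈ Metric.ball z₀ δ, u z ≠ 0 := by
      have h1 : ∀ᶠ z in 𝓝 z₀, u z ≠ 0 := hu.continuousAt.eventually_ne hz₀
      obtain ⟨δ, hδ, h2⟩ := Metric.eventually_nhds_iff_ball.1 h1
      exact ⟨δ, hδ, h2⟩
    have hcst : ∀ z ∈ Metric.ball z₀ δ, w z / u z = w z₀ / u z₀ := by
      have hdu : ∀ z, HasFDerivAt u (fderiv ℝ u z) z := fun z =>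
        (su.differentiable (by simp) z).hasFDerivAt
      have hdw : ∀ z, HasFDerivAt w (fderiv ℝ w z) z := fun z =>
        (sw.differentiable (by simp) z).hasFDerivAt
      have hd : ∀ z ∈ Metric.ball z₀ δ, HasFDerivAt (fun z => w z / u z) (0 : ℂ →L[ℝ] ℝ) z := by
        intro z hz
        have h0 := hball z hz
        have h3 := (hasDerivAt_inv h0).comp_hasFDerivAt z (hdu z)
        have h1 := (hdw z).mul h3
        have h4 : (fun z => w z / u z) = fun z => w z * ((fun y : ℝ => y⁻¹) ∘ u) z := by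
          funext z
          exact div_eq_mul_inv _ _
        rw [h4]
        refine h1.congr_fderiv ?_
        ext v
        have h2 := hL z v
        simp only [zero_apply, smul_apply,
          add_apply, smul_eq_mul, Function.comp_apply, neg_mul, mul_neg]
        field_simp
        linarith [h2]
      intro z hz
      refine (convex_ball z₀ δ).is_const_of_fderivWithin_eq_zero (𝕜 := ℝ)
        (f := fun z => w z / u z) (fun y hy => (hd y hy).differentiableAt.differentiableWithinAt)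
        (fun y hy => ?_) hz (Metric.mem_ball_self hδ)
      rw [fderivWithin_of_isOpen Metric.isOpen_ball hy]
      exact (hd y hy).fderiv
    refine ⟨w z₀ / u z₀, fun z => ?_⟩
    have h2 := unique_cont mean_deriv fderiv_bound
      (w := fun z => w z - (w z₀ / u z₀) * u z) (sw.sub (contDiff_const.mul su))
      (MeanValue.sub_smul hu hw hmu hmw _) (M := M + |w z₀ / u z₀| * M) (z₀ := z₀) ?_ hδ ?_ z
    · linarith [h2]
    · intro z
      refine (abs_sub _ _).trans (add_le_add (hbw z) ?_)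
      rw [abs_mul]
      exact mul_le_mul_of_nonneg_left (hb z) (abs_nonneg _)
    · intro y hy
      show w y - w z₀ / u z₀ * u y = 0
      rw [← hcst y hy, div_mul_cancel₀ _ (hball y hy), sub_self]

end Pool.Agent.Helper12.Er
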